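import Pool.Agent.Lib.GC.Fin

/-!
Determinant lines of Jacobians of general Galois covers.

`F` is a totally real number field, `D` a totally positive element of the ring of integers,
`E = F(√-D)`, and `emb v` is the embedding of `E` over the real place `v` with `√-D ↦ i √(v D)`.
The `G s` are finite groups, acting on curves `C s`, and `g s` is the list of the branch monodromies
of `C s → C s / G s`.  For characters `χ s` of the `G s` over `E` and a multiset `T` of CM types of
`E`, `Balanced emb g χ T` says that the line `⊗ det M_χ(s) ⊗ L_T` has type `(p, p)` at all embeddings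
(formula of Chevalley and Weil).  `IsAlg v₁ D emb g` is the least class of triples `(χ, L, T)` with
the determinants of linear characters of subgroups (which are Fermat lines), the Jacobi lines, the
divisor classes and compact ball quotients in CM abelian varieties, closed under products and
contraction.  See `Pool.Agent.Lib.GC.Defs` and `Pool.Agent.Lib.CMN.Defs`.
-/

set_option autoImplicit false

namespace Pool.Agent.Results.MP_938ce2_ag.GaloisCovers

open Pool.Agent Pool.Agent.GC

/-- `(χ, T)` is balanced if and only if it is obtained from Fermat lines, divisor classes and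
compact ball quotients. -/
theorem result (F : Type) [Field F] [NumberField F] [NumberField.IsTotallyReal F]
    (v₁ : F →+* ℝ) (D : F) (hD : IsIntegral ℤ D) (hpos : ∀ v : F →+* ℝ, 0 < v D)
    (E : Type) [Field E] [Algebra F E] (δ : E) (hδ : δ ^ 2 = -algebraMap F E D)
    (hEF : ∀ x : E, ∃ a b : F, x = algebraMap F E a + algebraMap F E b * δ)
    (emb : (F →+* ℝ) → (E →+* ℂ)) (hemb : ∀ v x, emb v (algebraMap F E x) = (v x : ℂ))
    (hembδ : ∀ v, emb v δ = Complex.I * (√(v D) : ℂ))
    (ι : Type) [Fintype ι] [DecidableEq ι] (G : ι → Type) [∀ s, Group (G s)]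
    [∀ s, Fintype (G s)] (hζ : ∀ s, ∃ ζ : E, IsPrimitiveRoot ζ (Fintype.card (G s)))
    (g : ∀ s, List (G s)) (hg : ∀ s, (g s).prod ∈ commutator (G s))
    (χ : ∀ s, G s → E) (hχ : ∀ s, IsChar (χ s)) (T : Multiset (CMN.CMType F)) :
    IsAlg v₁ D emb g χ 0 T ↔ Balanced emb g χ T :=
  final F v₁ D hD hpos E δ hδ hEF emb hemb hembδ ι G hζ g hg χ hχ T

end Pool.Agent.Results.MP_938ce2_ag.GaloisCovers
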