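import Pool.Agent.Lib.RAT.Fin

/-!
The Hodge conjecture for abelian varieties of CM type.

`A = ∏ i, ℂ^(Φ i) / Φ i (𝓞 (K i))`, for CM fields `K i` and CM types `Φ i`; up to isogeny every
complex abelian variety of CM type is of this form. `HQ K n` is `H_{2n}(A, ℚ)`, a class being given
by its pairings with the constant `2n`-forms; `IsHodge Φ u` says that `u` is a Hodge class.
`BallCl Φ` is the set of the classes, in terms of the coordinates `dy_j`, `conj dy_j`, of the
holomorphic maps to `A` from compact arithmetic quotients of the `n`-ball; these quotients are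
projective varieties, so the classes are algebraic. See `Pool.Agent.Lib.HCM.Stat` for the
definitions.
-/

set_option autoImplicit false

namespace Pool.Agent.Results.MP_938ce2_ag.HodgeCM

open Complex Pool.Agent.HCM

/-- The classes in `H_{2n}(A, ℚ)` of the holomorphic maps to `A` from compact arithmetic quotients of
the `n`-ball. The factor `(-2i)^n` passes from the Lebesgue measure to the form
`dy_0 ∧ … ∧ dy_(n-1) ∧ conj dy_0 ∧ … ∧ conj dy_(n-1)` (up to sign). -/
def BallQ {ι : Type} {K : ι → Type} [∀ i, Field (K i)] {n : ℕ} (Φ : ∀ i, Set (K i →+* ℂ)) :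
    Set ((Two n → Idx K) → ℂ) :=
  {w | w ∈ HQ K n ∧ ∃ v ∈ BallCl Φ, w = (-2 * I) ^ n • v}

/-- Every Hodge class in `H_{2n}(A, ℚ)`, `n ≥ 1`, is a linear combination with rational coefficients
of classes of holomorphic maps from compact arithmetic ball quotients to `A`. -/
theorem result (n : ℕ) (ι : Type) [Finite ι] (K : ι → Type) [∀ i, Field (K i)]
    [∀ i, NumberField (K i)] [∀ i, NumberField.IsCMField (K i)] (Φ : ∀ i, Set (K i →+* ℂ))
    (hn : 0 < n) (hΦ : ∀ i, IsCMType (Φ i)) (u : (Two n → Idx K) → ℂ) (hu : u ∈ HQ K n)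
    (hH : IsHodge Φ u) : u ∈ Submodule.span ℚ (BallQ Φ) :=
  Pool.Agent.RAT.hodgeQ n ι K Φ hn hΦ u hu hH

end Pool.Agent.Results.MP_938ce2_ag.HodgeCM
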