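import Pool.Agent.Lib.UNG.Short

/-!
# The Tate conjecture for abelian varieties whose Hodge group is as large as possible

`K k`, `k : κ`, are finitely many CM fields, `G k` finite nonempty sets, `h k g` nonzero real elements
of `K k`.  `X = ∏ k, A k` is an abelian variety, `A k` has multiplication by `K k`,
`H_1(A k, ℚ) = (K k)^(G k)`, and is polarised by the hermitian form `∑ g, h k g * x g * conj (y g)`
(times a purely imaginary element of `K k`).  A finite group `Γ k` acts faithfully on `K k`, and on
`G k`, and `A k` has the endomorphisms `J_γ(x)_(γ g) = d γ g * γ (x g)`, `γ : Γ k`, which are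
similitudes up to scalars in `K k` and form a group up to such scalars (`IsDesc`): with `K k` they
generate a central simple algebra over the fixed field of `Γ k`.  The part of `H_1(A k, ℂ)` on which
`K k` acts by the embedding `τ` has `a` dimensions of type `(1,0)`, `a` the number of the `g` with
`τ ∈ Φ (k, g)`; `IsTypeG` says that the `J_γ` are endomorphisms of `A k`.  The Tate classes are
tensors in `H_1(X, ℚ_p)^{⊗ 2n}` (`IsTensP`); `H_{2n}(X^r, ℚ_p)` lies in a sum of copies of it for all
`r`.

Every polarised abelian variety `A` with endomorphism algebra `D`, of any of Albert's types, whose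
Hodge group contains the special unitary group of `H_1(A, ℚ)` over `D`, has a power which is such a
block: let `T` be a maximal torus of the unitary group whose real points are compact, `K` a CM field,
Galois over the centre `F` of `D`, which splits `T` and `D`, and `V` the `K`-space with
`H_1(A, ℚ) ⊗_F K = V^d`, `d ^ 2 = [D : F]`; the weight vectors of `T` are an orthogonal basis of `V`
which is permuted, up to scalars, by the semilinear action of the Galois group.

`IsTateG`: the Lie algebra `IsSUG` of the special unitary group of the forms `h k`, commuting with the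
`J_γ`, kills `c` (`KillsP`, `derL`), and, for some `m`, for every integer `x ≡ 1 mod p^m` of `E` the
multiplication by `(∏ g, z (k, g))^(e k)` on `A k` (`sclL`), `z (k, g)` the reflex norm of `x` for the
CM type `Φ (k, g)`, acts on `c` by the `nN`-th power of the norm of `x`, `N = e k * card (G k)`
(`ActsP`).  If an open subgroup of the Galois group acts on `H_1(X, ℚ_p)` through an open subgroup of
the Mumford-Tate group (Mumford-Tate conjecture), and its Lie algebra contains `IsSUG`, these are the
Tate classes: the `K k`-determinant of `H_1(A k, ℚ_p)` is the same as the one of the CM abelian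
variety `∏ g, ℂ^(Φ (k, g)) / 𝓞`, on which the Galois group acts by the product of the reflex norms, so
that the `N`-th power of the element given by `x` is the above multiplication times an element of the
group with the Lie algebra `IsSUG`.

`IsProdS`: the endomorphisms `J_γ` applied at the places (`mvS`) to products `IsProdL` of divisor
classes (`pairL`) and of one class `detT blk f v`, the transfer by the `K k`-determinants of a class
`v` on a CM abelian variety, which is a combination of classes of maps from compact arithmetic ball
quotients (`IsBallQ`); `IsAlgS`: their combinations with coefficients in `ℚ_p`.  See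
`Pool.Agent.Lib.UNG.Short`, `Pool.Agent.Lib.UNG.Stat`, `Pool.Agent.Lib.UNIT.Short`,
`Pool.Agent.Lib.UNIT.Stat`, `Pool.Agent.Lib.RAT.GQ`, `Pool.Agent.Lib.HCM.TateDefs`,
`Pool.Agent.Lib.HCM.Stat` and `Pool.Agent.Lib.CMN.Defs` for the definitions.
-/

set_option autoImplicit false

open scoped TensorProduct

namespace Pool.Agent.Results.MP_938ce2_ag.TateBlocks

open Pool.Agent.HCM Pool.Agent.UNIT Pool.Agent.UNG

/-- The Tate classes in `H_1(X, ℚ_p)^{⊗ 2n}` are the linear combinations, with coefficients in
`ℚ_p`, of the products of divisor classes and of the transfers, by `K k`-determinants, of classes of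
holomorphic maps from compact arithmetic ball quotients to CM abelian varieties, with the
endomorphisms `J_γ` applied at the places. -/
theorem result (p : ℕ) [Fact p.Prime] (n : ℕ) (κ : Type) [Fintype κ] (K G Γ : κ → Type)
    [∀ k, Field (K k)] [∀ k, NumberField (K k)] [∀ k, NumberField.IsCMField (K k)]
    [∀ k, Fintype (G k)] [∀ k, Nonempty (G k)] [∀ k, Group (Γ k)] [∀ k, Fintype (Γ k)]
    [∀ k, MulSemiringAction (Γ k) (K k)] [∀ k, FaithfulSMul (Γ k) (K k)]
    [∀ k, MulAction (Γ k) (G k)]
    (h : ∀ k, G k → K k) (hh : ∀ k g, h k g ≠ 0 ∧ ∀ τ : K k →+* ℂ, (τ (h k g)).im = 0)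
    (d : ∀ k, Γ k → G k → K k) (hd : ∀ k, IsDesc (h k) (d k))
    (Φ : ∀ i : Σ k, G k, Set (K i.1 →+* ℂ)) (hΦ : IsTypeG Γ Φ)
    (N : ℕ) (e : κ → ℕ) (hN : 0 < N) (he : ∀ k, e k * Fintype.card (G k) = N)
    (E : Type) [Field E] [NumberField E] [IsGalois ℚ E] (j : ∀ k, K k →+* E) (τ₀ : E →+* ℂ)
    (c : ℚ_[p] ⊗[ℚ] ((Fin (2 * n) → LU K G) → ℂ)) (hc : IsTensP p c) :
    IsTateG p Φ h d N e j τ₀ c ↔ IsAlgS p Φ h d c :=
  tateS p n κ K G Γ h hh d hd Φ hΦ N e hN he E j τ₀ c hc

end Pool.Agent.Results.MP_938ce2_ag.TateBlocks
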