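import Pool.Agent.Lib.TPR.FinC
import Pool.Agent.Lib.TPR.Lie

/-!
# The Tate conjecture for `A × B`, `A` of symplectic or `GL₂`-type, `B` of CM type

`A = ℂ^P / ∑ ℤ b_i`, `P = Σ s, M s × G s`, `b` an `ℝ`-basis of `ℂ^P`.  `IsSymp`: the Hodge Lie
algebra of `A` is `⨁ₛ 𝔰𝔭(V_s)`, `H_1(A, ℂ) = ⨁ₛ V_s ⊗ ℂ^(M s)`, as large as possible: for example `A`
is a product of abelian surfaces and elliptic curves without factors of CM type.  `IsGL2`: `A` is of
`GL₂`-type: for example `A = 0`, elliptic curves without CM, real multiplication of degree `dim A`,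
totally indefinite quaternionic multiplication, and products of these.
`B = ∏ i, ℂ^(Φ i) / Φ i (𝓞 (K i))` for finitely many CM fields `K i` with CM types `Φ i`.
`HX K b (Fin (2 * n))` is `H_{2n}(A × B, ℚ)` and `HCp p K b n = ℚ_[p] ⊗[ℚ] HC K b n` is
`H_{2n}(A × B, ℚ_p)`.  `E` is a number field, Galois over `ℚ`, which contains the `K i`.

`IsTateX`: the Hodge Lie algebra of `A` kills `c`, and for some `m` and all integers
`x ≡ 1 mod p^m` of `E` the endomorphism of `A × B` which is the multiplication by the norm `N(x)` on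
`A` and by the square of the reflex norm of `x` on `B` acts on `c` by `N(x)^(2n)`.  If an open
subgroup of the Galois group acts on `H_1(A, ℚ_p)` through an open subgroup of the group generated
by the homotheties and the Hodge group, which is semisimple (Serre, Ribet, Faltings; Commelin for
products), it acts on `H_1(B, ℚ_p)` through a torus, by the reflex norms (Shimura, Taniyama); so its
commutators give the first condition, and with the first condition the square of the element given
by `x` acts as `(N(x), z^2)`, `z` the reflex norm.  Hence these are the Tate classes.  `IsProdC`: the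
Pontryagin products of rational classes of type `(1,1)` in `H_2(A)` and of the classes of maps from
compact arithmetic ball quotients to `B`.

For `A = 0` this is the Tate conjecture for abelian varieties of CM type.  See
`Pool.Agent.Lib.TPR.Defs`, `Pool.Agent.Lib.TPR.DefsC`, `Pool.Agent.Lib.GG.Stat`,
`Pool.Agent.Lib.HCM.TateDefs`, `Pool.Agent.Lib.HCM.Stat` and `Pool.Agent.Lib.CMN.Defs` for the
definitions.
-/

set_option autoImplicit false

namespace Pool.Agent.Results.MP_938ce2_ag.TateProducts

open Pool.Agent.HCM Pool.Agent.GG Pool.Agent.TPR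

/-- The Tate classes in `H_{2n}(A × B, ℚ_p)` are the linear combinations, with coefficients in
`ℚ_p`, of the products of divisor classes in `H_2(A, ℚ)` and of classes of holomorphic maps from
compact arithmetic ball quotients to `B`. -/
theorem result (p : ℕ) [Fact p.Prime] (n : ℕ) (S Λ : Type) [Fintype S] [Fintype Λ]
    (M G : S → Type) [∀ s, Fintype (M s)] [∀ s, Fintype (G s)]
    (b : Module.Basis Λ ℝ (Crd M G → ℂ)) (hA : IsSymp b ∨ IsGL2 b)
    (ι : Type) [Finite ι] (K : ι → Type)
    [∀ i, Field (K i)] [∀ i, NumberField (K i)] [∀ i, NumberField.IsCMField (K i)]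
    (Φ : ∀ i, Set (K i →+* ℂ)) (hΦ : ∀ i, IsCMType (Φ i))
    (E : Type) [Field E] [NumberField E] [IsGalois ℚ E] (j : ∀ i, K i →+* E) (τ₀ : E →+* ℂ)
    (c : HCp p K b n) :
    IsTateX p b Φ j τ₀ c ↔ c ∈ Submodule.span ℚ_[p] (RatP p (IsProdC b Φ n)) :=
  TFINx.tateC_of_rows
    (fun _ _ _ _ _ _ _ _ b _ _ _ _ _ _ u hu h => tbal b u hu h)
    (fun _ _ _ _ _ _ _ _ b _ _ _ _ _ _ u hu h => tkill b u hu h)
    p n S Λ M G b ι K Φ hΦ hA E j τ₀ c

end Pool.Agent.Results.MP_938ce2_ag.TateProducts
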